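import Pool.Agent.helper67.DL.SpecL

/-! # dl:MT. Schur triangulation of a `3 × 3` complex matrix -/

namespace Pool.Agent.DL

open Matrix Complex
open scoped ComplexOrder InnerProductSpace

noncomputable section

theorem MT_unit {E : Type*} [NormedAddCommGroup E] [InnerProductSpace ℂ E] (w : E) (hw : w ≠ 0) :
    ‖((‖w‖⁻¹ : ℝ) : ℂ) • w‖ = 1 := by
  rw [norm_smul, Complex.norm_real, norm_inv, norm_norm, inv_mul_cancel₀ (norm_ne_zero_iff.mpr hw)]

theorem MT_exists {E : Type*} [NormedAddCommGroup E] [InnerProductSpace ℂ E] [FiniteDimensional ℂ E]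
    (h3 : Module.finrank ℂ E = 3) (T : E →ₗ[ℂ] E) :
    ∃ b : OrthonormalBasis (Fin 3) ℂ E, ∀ i j : Fin 3, j < i → ⟪b i, T (b j)⟫_ℂ = 0 := by
  have hnt : Nontrivial E := by
    apply Module.nontrivial_of_finrank_pos (R := ℂ)
    omega
  obtain ⟨μ, hμ⟩ := Module.End.exists_eigenvalue (LinearMap.adjoint T)
  obtain ⟨w, hw⟩ := hμ.exists_hasEigenvector
  have hw0 : w ≠ 0 := hw.2
  have hw1 : LinearMap.adjoint T w = μ • w := hw.apply_eq_smul
  set v3 : E := ((‖w‖⁻¹ : ℝ) : ℂ) • w with hv3
  have hv3n : ‖v3‖ = 1 := MT_unit w hw0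
  have hv3e : LinearMap.adjoint T v3 = μ • v3 := by
    rw [hv3, map_smul, hw1, smul_comm]
  have hv30 : v3 ≠ 0 := by
    intro h
    rw [h, norm_zero] at hv3n
    exact zero_ne_one hv3n
  have hinv : ∀ x : E, ⟪v3, x⟫_ℂ = 0 → ⟪v3, T x⟫_ℂ = 0 := by
    intro x hx
    rw [← LinearMap.adjoint_inner_left, hv3e, inner_smul_left, hx, mul_zero]
  set V : Submodule ℂ E := (Submodule.span ℂ {v3})ᗮ with hV
  have hmem : ∀ x : E, x ∈ V ↔ ⟪v3, x⟫_ℂ = 0 := by
    intro x
    rw [hV, Submodule.mem_orthogonal_singleton_iff_inner_right]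
  have hfr : Module.finrank ℂ V = 2 := by
    have : Fact (Module.finrank ℂ E = 2 + 1) := ⟨h3⟩
    exact Submodule.finrank_orthogonal_span_singleton (𝕜 := ℂ) (n := 2) hv30
  have hVn : Nontrivial V := by
    apply Module.nontrivial_of_finrank_pos (R := ℂ)
    omega
  have hVT : ∀ x ∈ V, T x ∈ V := by
    intro x hx
    rw [hmem] at hx ⊢
    exact hinv x hx
  obtain ⟨ν, hν⟩ := Module.End.exists_eigenvalue (T.restrict hVT)
  obtain ⟨y, hy⟩ := hν.exists_hasEigenvector
  have hy0 : (y : E) ≠ 0 := by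
    intro h
    exact hy.2 (Subtype.ext h)
  have hy1 : T (y : E) = ν • (y : E) := by
    have := hy.apply_eq_smul
    have h2 := congrArg (Subtype.val) this
    simpa using h2
  set v1 : E := ((‖(y : E)‖⁻¹ : ℝ) : ℂ) • (y : E) with hv1
  have hv1n : ‖v1‖ = 1 := MT_unit _ hy0
  have hv1e : T v1 = ν • v1 := by
    rw [hv1, map_smul, hy1, smul_comm]
  have h31 : ⟪v3, v1⟫_ℂ = 0 := by
    rw [hv1, inner_smul_right, (hmem _).mp y.2, mul_zero]
  have h13 : ⟪v1, v3⟫_ℂ = 0 := by
    rw [← inner_conj_symm, h31, map_zero]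
  -- the partial orthonormal family
  let v : Fin 3 → E := fun i => if i = 0 then v1 else v3
  have hv : Orthonormal ℂ (({0, 2} : Set (Fin 3)).domRestrict v) := by
    constructor
    · rintro ⟨i, hi⟩
      rcases hi with rfl | hi
      · show ‖v1‖ = 1
        exact hv1n
      · have : i = 2 := hi
        subst this
        show ‖v3‖ = 1
        exact hv3n
    · rintro ⟨i, hi⟩ ⟨j, hj⟩ hij
      have hij' : i ≠ j := fun h => hij (Subtype.ext h)
      rcases hi with rfl | hi
      · rcases hj with rfl | hj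
        · exact absurd rfl hij'
        · have : j = 2 := hj
          subst this
          show ⟪v1, v3⟫_ℂ = 0
          exact h13
      · have : i = 2 := hi
        subst this
        rcases hj with rfl | hj
        · show ⟪v3, v1⟫_ℂ = 0
          exact h31
        · have : j = 2 := hj
          subst this
          exact absurd rfl hij'
  obtain ⟨b, hb⟩ := Orthonormal.exists_orthonormalBasis_extension_of_card_eq (𝕜 := ℂ) (E := E) (ι := Fin 3)
    (by rw [h3]; simp) hv
  have hb0 : b 0 = v1 := by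
    have := hb 0 (by simp)
    simpa [v] using this
  have hb2 : b 2 = v3 := by
    have := hb 2 (by simp)
    simpa [v] using this
  have horth : ∀ i j : Fin 3, i ≠ j → ⟪b i, b j⟫_ℂ = 0 := fun i j hij => b.orthonormal.2 hij
  refine ⟨b, ?_⟩
  intro i j hij
  fin_cases j
  · have hi0 : i ≠ 0 := by
      intro h
      rw [h] at hij
      exact absurd hij (by decide)
    show ⟪b i, T (b 0)⟫_ℂ = 0
    rw [hb0, hv1e, inner_smul_right, ← hb0, horth i 0 hi0, mul_zero]
  · have hi2 : i = 2 := by
      fin_cases i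
      · exact absurd hij (by decide)
      · exact absurd hij (by decide)
      · rfl
    subst hi2
    show ⟪b 2, T (b 1)⟫_ℂ = 0
    rw [hb2]
    apply hinv
    rw [← hb2]
    exact horth 2 1 (by decide)
  · exfalso
    fin_cases i
    · exact absurd hij (by decide)
    · exact absurd hij (by decide)
    · exact absurd hij (by decide)

theorem MT_holds : MT_stmt := by
  intro B
  obtain ⟨b, hb⟩ := MT_exists (E := EuclideanSpace ℂ (Fin 3)) (by simp) (Matrix.toEuclideanLin B)
  let U : Matrix (Fin 3) (Fin 3) ℂ := Matrix.of fun i k => star ((b i) k)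
  have hU : ∀ i k, U i k = star ((b i) k) := fun i k => rfl
  have hin : ∀ x y : EuclideanSpace ℂ (Fin 3), ⟪x, y⟫_ℂ = ∑ k, star (x k) * y k := by
    intro x y
    rw [PiLp.inner_apply]
    apply Finset.sum_congr rfl
    intro k _
    simp [mul_comm]
  refine ⟨U, ?_, ?_⟩
  · rw [Matrix.mem_unitaryGroup_iff]
    ext i j
    rw [Matrix.mul_apply]
    have h1 : ∀ k, U i k * (star U) k j = star ((b i) k) * (b j) k := by
      intro k
      rw [Matrix.star_apply, hU, hU, star_star]
    rw [Finset.sum_congr rfl (fun k _ => h1 k), ← hin]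
    have := (orthonormal_iff_ite.mp b.orthonormal) i j
    rw [this, Matrix.one_apply]
  · intro i j hij
    have h := hb i j hij
    rw [hin] at h
    rw [Matrix.mul_assoc, Matrix.mul_apply, ← h]
    apply Finset.sum_congr rfl
    intro k _
    rw [hU, Matrix.mul_apply]
    congr 1
    rw [Matrix.toLpLin_apply]
    simp only [Matrix.mulVec, dotProduct]
    apply Finset.sum_congr rfl
    intro l _
    rw [Matrix.conjTranspose_apply, hU, star_star]

end

end Pool.Agent.DL
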